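import Mathlib

/-!
# Alternating reachability and closed sets of digraphs with bounded independence number
-/

set_option autoImplicit false

open Classical

namespace Pool.Agent.H255R3.AR

variable {V : Type}

/-- The positions from which the existential player can force the play to reach `t`: `U` is the set
of positions of the universal player, who loses only if all of his moves (and there is one) lead
to won positions. -/
inductive Win (E : V → V → Prop) (U : V → Prop) (t : V) : V → Prop
  | target : Win E U t t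
  | some {v w : V} (hv : ¬ U v) (h : E v w) (hw : Win E U t w) : Win E U t v
  | all {v : V} (hv : U v) (hne : ∃ w, E v w) (h : ∀ w, E v w → Win E U t w) : Win E U t v

/-- Every independent set of vertices with property `W` has at most `k` elements. -/
def IndepLe (E : V → V → Prop) (W : V → Prop) (k : ℕ) : Prop :=
  ∀ s : Finset V, (∀ a ∈ s, W a) → (∀ a ∈ s, ∀ b ∈ s, a ≠ b → ¬ E a b) → s.card ≤ k

/-- Quasi-kernels (Chvatal and Lovasz). -/
theorem quasi_kernel (E : V → V → Prop) : ∀ (n : ℕ) (S : Finset V), S.card ≤ n →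
    ∃ Q ⊆ S, (∀ a ∈ Q, ∀ b ∈ Q, a ≠ b → ¬ E a b) ∧
      ∀ w ∈ S, ∃ q ∈ Q, w = q ∨ E q w ∨ ∃ x ∈ S, E q x ∧ E x w := by
  intro n
  induction n with
  | zero =>
    intro S hS
    rw [Nat.le_zero, Finset.card_eq_zero] at hS
    subst hS
    exact ⟨∅, by simp, by simp, by simp⟩
  | succ n ih =>
    intro S hS
    rcases S.eq_empty_or_nonempty with h0 | ⟨v, hv⟩
    · subst h0
      exact ⟨∅, by simp, by simp, by simp⟩
    · let S' := S.filter fun w => w ≠ v ∧ ¬ E v w
      have hS'S : S' ⊆ S := Finset.filter_subset _ _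
      have hvS' : v ∉ S' := by simp [S']
      have hcard : S'.card ≤ n := by
        have : S'.card < S.card := Finset.card_lt_card ⟨hS'S, fun h => hvS' (h hv)⟩
        omega
      obtain ⟨Q, hQ, hind, hcov⟩ := ih S' hcard
      have hcov' : ∀ w ∈ S', ∃ q ∈ Q, w = q ∨ E q w ∨ ∃ x ∈ S, E q x ∧ E x w := by
        intro w hw
        obtain ⟨q, hq, h⟩ := hcov w hw
        refine ⟨q, hq, h.imp_right fun h => h.imp_right ?_⟩
        rintro ⟨x, hx, h⟩
        exact ⟨x, hS'S hx, h⟩
      have hsplit : ∀ w ∈ S, w ∈ S' ∨ w = v ∨ E v w := by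
        intro w hw
        by_cases h1 : w = v
        · exact Or.inr (Or.inl h1)
        · by_cases h2 : E v w
          · exact Or.inr (Or.inr h2)
          · exact Or.inl (Finset.mem_filter.2 ⟨hw, h1, h2⟩)
      by_cases h : ∃ q ∈ Q, E q v
      · obtain ⟨q, hq, hqv⟩ := h
        refine ⟨Q, hQ.trans hS'S, hind, fun w hw => ?_⟩
        rcases hsplit w hw with h1 | h1 | h1
        · exact hcov' w h1
        · exact ⟨q, hq, Or.inr (Or.inl (by rw [h1]; exact hqv))⟩
        · exact ⟨q, hq, Or.inr (Or.inr ⟨v, hv, hqv, h1⟩)⟩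
      · push Not at h
        refine ⟨insert v Q, ?_, ?_, fun w hw => ?_⟩
        · intro x hx
          rcases Finset.mem_insert.1 hx with rfl | hx
          · exact hv
          · exact hS'S (hQ hx)
        · intro a ha b hb hab
          rcases Finset.mem_insert.1 ha with ha' | ha'
          · rcases Finset.mem_insert.1 hb with hb' | hb'
            · exact absurd (ha'.trans hb'.symm) hab
            · rw [ha']
              exact (Finset.mem_filter.1 (hQ hb')).2.2
          · rcases Finset.mem_insert.1 hb with hb' | hb'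
            · rw [hb']
              exact h a ha'
            · exact hind a ha' b hb' hab
        · rcases hsplit w hw with h1 | h1 | h1
          · obtain ⟨q, hq, h2⟩ := hcov' w h1
            exact ⟨q, Finset.mem_insert_of_mem hq, h2⟩
          · exact ⟨v, Finset.mem_insert_self _ _, Or.inl h1⟩
          · exact ⟨v, Finset.mem_insert_self _ _, Or.inr (Or.inl h1)⟩

/-- The ball of radius two around `z` inside `W`. -/
def Ball (E : V → V → Prop) (W : V → Prop) (z w : V) : Prop :=
  (W w ∧ W z) ∧ (w = z ∨ E z w ∨ ∃ x, W x ∧ (E z x ∧ E x w))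

/-- Closed sets are unions of few balls. -/
theorem closed_eq [Finite V] {E : V → V → Prop} {W : V → Prop} {k : ℕ} (hk : IndepLe E W k)
    {S : V → Prop} (hSW : ∀ a, S a → W a) (hcl : ∀ a b, S a → W b → E a b → S b) :
    ∃ Q : Finset V, Q.card ≤ k ∧ ∀ w, S w ↔ ∃ q ∈ Q, Ball E W q w := by
  have := Fintype.ofFinite V
  obtain ⟨Q, hQ, hind, hcov⟩ := quasi_kernel E (Finset.univ.filter S).card
    (Finset.univ.filter S) le_rfl
  have hQS : ∀ q ∈ Q, S q := fun q hq => (Finset.mem_filter.1 (hQ hq)).2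
  refine ⟨Q, hk Q (fun a ha => hSW a (hQS a ha)) hind, fun w => ⟨fun hw => ?_, ?_⟩⟩
  · obtain ⟨q, hq, h⟩ := hcov w (by simpa using hw)
    refine ⟨q, hq, ⟨hSW w hw, hSW q (hQS q hq)⟩, h.imp_right fun h => h.imp_right ?_⟩
    rintro ⟨x, hx, h⟩
    exact ⟨x, hSW x (by simpa using hx), h⟩
  · rintro ⟨q, hq, ⟨hw, hqW⟩, h | h | ⟨x, hx, h1, h2⟩⟩
    · rw [h]; exact hQS q hq
    · exact hcl q w (hQS q hq) hw h
    · exact hcl x w (hcl q x (hQS q hq) hx h1) hw h2

/-- There are at most `k` parameters whose balls, added to `S`, give a set with property `Φ`. -/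
def ExU (Bl : V → V → Prop) (Φ : (V → Prop) → Prop) : ℕ → (V → Prop) → Prop
  | 0, S => Φ S
  | k + 1, S => ExU Bl Φ k S ∨ ∃ z, ExU Bl Φ k (fun w => S w ∨ Bl z w)

theorem ExU_sound {Bl : V → V → Prop} {Φ : (V → Prop) → Prop} (k : ℕ) : ∀ S : V → Prop,
    ExU Bl Φ k S → ∃ S', Φ S' := by
  induction k with
  | zero => exact fun S h => ⟨S, h⟩
  | succ k ih =>
    rintro S (h | ⟨z, h⟩)
    · exact ih _ h
    · exact ih _ h

theorem ExU_complete {Bl : V → V → Prop} {Φ : (V → Prop) → Prop} (k : ℕ) :
    ∀ (S : V → Prop) (Q : Finset V), Q.card ≤ k → Φ (fun w => S w ∨ ∃ q ∈ Q, Bl q w) →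
      ExU Bl Φ k S := by
  induction k with
  | zero =>
    intro S Q hQ h
    rw [Nat.le_zero, Finset.card_eq_zero] at hQ
    subst hQ
    have : (fun w => S w ∨ ∃ q ∈ (∅ : Finset V), Bl q w) = S := by
      funext w
      simp
    rw [this] at h
    exact h
  | succ k ih =>
    intro S Q hQ h
    rcases Q.eq_empty_or_nonempty with h0 | ⟨q, hq⟩
    · subst h0
      exact Or.inl (ih S ∅ (by simp) h)
    · right
      refine ⟨q, ih _ (Q.erase q) ?_ ?_⟩
      · rw [Finset.card_erase_of_mem hq]
        omega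
      · have : (fun w => (S w ∨ Bl q w) ∨ ∃ p ∈ Q.erase q, Bl p w) =
            fun w => S w ∨ ∃ p ∈ Q, Bl p w := by
          funext w
          apply propext
          constructor
          · rintro ((h | h) | ⟨p, hp, h⟩)
            · exact Or.inl h
            · exact Or.inr ⟨q, hq, h⟩
            · exact Or.inr ⟨p, Finset.mem_of_mem_erase hp, h⟩
          · rintro (h | ⟨p, hp, h⟩)
            · exact Or.inl (Or.inl h)
            · by_cases hpq : p = q
              · rw [hpq] at h
                exact Or.inl (Or.inr h)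
              · exact Or.inr ⟨p, Finset.mem_erase.2 ⟨hpq, hp⟩, h⟩
        rw [this]
        exact h

/-- The set given by a set of existential and a set of universal positions. -/
def Reg (U : V → Prop) (t : V) (Y X : V → Prop) (w : V) : Prop :=
  w ≠ t ∧ ((¬ U w ∧ Y w) ∨ (U w ∧ ¬ X w))

/-- `R` contains `v` and the existential player cannot leave it. -/
def Trap (E : V → V → Prop) (U : V → Prop) (R : V → Prop) (v : V) : Prop :=
  R v ∧ ∀ w, R w → ((¬ U w → ∀ x, E w x → R x) ∧ (U w → (∃ x, E w x ∧ R x) ∨ ∀ x, ¬ E w x))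

theorem trap_not_win {E : V → V → Prop} {U : V → Prop} {t v : V} {R : V → Prop}
    (h : Trap E U R v) (ht : ¬ R t) : ¬ Win E U t v := by
  have key : ∀ w, Win E U t w → ¬ R w := by
    intro w hw
    induction hw with
    | target => exact ht
    | some hv h1 _ ih => exact fun hR => ih ((h.2 _ hR).1 hv _ h1)
    | all hv hne _ ih =>
      intro hR
      rcases (h.2 _ hR).2 hv with ⟨x, hx, hx'⟩ | h2
      · exact ih x hx hx'
      · obtain ⟨w, hw⟩ := hne
        exact h2 w hw
  exact fun hw => key v hw h.1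

theorem trap_compl (E : V → V → Prop) (U : V → Prop) (t v : V) (h : ¬ Win E U t v) :
    Trap E U (fun w => ¬ Win E U t w) v := by
  refine ⟨h, fun w hw => ⟨fun hU x hx hx' => hw (.some hU hx hx'), fun hU => ?_⟩⟩
  by_contra hc
  push Not at hc
  obtain ⟨x, hx⟩ := hc.2
  exact hw (.all hU ⟨x, hx⟩ fun y hy => hc.1 y hy)

/-- The query that defines losing. -/
def Lose (E : V → V → Prop) (U : V → Prop) (k : ℕ) (t v : V) : Prop :=
  ExU (Ball E fun w => ¬ U w) (fun Y =>
    ExU (Ball E fun w => U w ∧ w ≠ t) (fun X => Trap E U (Reg U t Y X) v) k (fun _ => False))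
    k (fun _ => False)

theorem lose_iff [Finite V] {E : V → V → Prop} {U : V → Prop} {k : ℕ} {t : V}
    (h1 : IndepLe E (fun w => ¬ U w) k) (h2 : IndepLe E (fun w => U w ∧ w ≠ t) k) (v : V) :
    Lose E U k t v ↔ ¬ Win E U t v := by
  constructor
  · intro h
    obtain ⟨Y, h⟩ := ExU_sound k _ h
    obtain ⟨X, h⟩ := ExU_sound k _ h
    exact trap_not_win h fun h => h.1 rfl
  · intro h
    obtain ⟨Q, hQ, hQ'⟩ := closed_eq h1 (S := fun w => ¬ U w ∧ ¬ Win E U t w)
      (fun a ha => ha.1) (fun a b ha hb hab => ⟨hb, fun hw => ha.2 (.some ha.1 hab hw)⟩)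
    obtain ⟨P, hP, hP'⟩ := closed_eq h2 (S := fun w => (U w ∧ w ≠ t) ∧ Win E U t w)
      (fun a ha => ha.1) (fun a b ha hb hab => ⟨hb, by
        rcases ha.2 with _ | ⟨h3, _, _⟩ | ⟨_, _, h3⟩
        · exact absurd rfl ha.1.2
        · exact absurd ha.1.1 h3
        · exact h3 b hab⟩)
    refine ExU_complete k _ Q hQ (ExU_complete k _ P hP ?_)
    have hR : Reg U t (fun w => False ∨ ∃ q ∈ Q, Ball E (fun w => ¬ U w) q w)
        (fun w => False ∨ ∃ q ∈ P, Ball E (fun w => U w ∧ w ≠ t) q w) =
        fun w => ¬ Win E U t w := by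
      funext w
      apply propext
      simp only [Reg, false_or]
      rw [← hQ', ← hP']
      constructor
      · rintro ⟨h3, ⟨h4, h5⟩ | ⟨h4, h5⟩⟩
        · exact h5.2
        · exact fun h6 => h5 ⟨⟨h4, h3⟩, h6⟩
      · intro h3
        refine ⟨fun h4 => h3 (by rw [h4]; exact .target), ?_⟩
        by_cases h4 : U w
        · exact Or.inr ⟨h4, fun h5 => h3 h5.2⟩
        · exact Or.inl ⟨h4, h4, h3⟩
    rw [hR]
    exact trap_compl E U t v h

end Pool.Agent.H255R3.AR
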