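import Pool.Agent.H255R3.AR.Core
import Pool.Agent.H255R3.AR.Fo

/-!
# Definability of alternating reachability
-/

set_option autoImplicit false

namespace Pool.Agent.H255R3.AR

theorem cons_comp_cons {V : Type} {m : ℕ} (v : Fin m) (ν : Fin m → V) :
    ν ∘ (Fin.cons v id : Fin (m + 1) → Fin m) = Fin.cons (ν v) ν := by
  funext i
  refine Fin.cases ?_ (fun j => ?_) i <;> simp

theorem comp_lift_succ {V : Type} {m : ℕ} (w a : V) (ν : Fin m → V) :
    (Fin.cons w (Fin.cons a ν : Fin (m + 1) → V) : Fin (m + 2) → V) ∘ liftR Fin.succ =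
      Fin.cons w ν := by
  funext i
  refine Fin.cases ?_ (fun j => ?_) i <;> simp [liftR]

theorem comp_swap {V : Type} {n m : ℕ} (f : Fin n → Fin m) (w a : V) (ν : Fin m → V) :
    (Fin.cons w (Fin.cons a ν : Fin (m + 1) → V) : Fin (m + 2) → V) ∘
      (Fin.cons (Fin.succ 0) (Fin.cons 0 (fun i => (f i).succ.succ) : Fin (n + 1) → Fin (m + 2)) :
        Fin (n + 2) → Fin (m + 2)) = Fin.cons a (Fin.cons w (ν ∘ f) : Fin (n + 1) → V) := by
  funext i
  refine Fin.cases ?_ (fun j => ?_) i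
  · rfl
  · refine Fin.cases ?_ (fun l => ?_) j
    · rfl
    · rfl

theorem dfn_trap {m : ℕ} (v : Fin m) {R : Qry (m + 1)} (hR : Dfn R) :
    Dfn (n := m) (fun V E U ν => Trap E U (fun w => R V E U (Fin.cons w ν)) (ν v)) := by
  have h1 : Dfn (n := m) (fun V E U ν => R V E U (Fin.cons (ν v) ν)) :=
    (hR.ren (Fin.cons v id : Fin (m + 1) → Fin m)).congr fun V E U ν => by
      rw [cons_comp_cons]
  have h2 : Dfn (n := m + 2) (fun V E U ν => R V E U (ν ∘ liftR Fin.succ)) := hR.ren _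
  have h3 : Dfn (n := m + 1) (fun V E U ν => ∀ x, E (ν 0) x →
      R V E U ((Fin.cons x ν : Fin (m + 2) → V) ∘ liftR Fin.succ)) :=
    ((Dfn.edge (Fin.succ 0) 0).imp h2).all.congr fun V E U ν => Iff.rfl
  have h4 : Dfn (n := m + 1) (fun V E U ν => ∃ x, E (ν 0) x ∧
      R V E U ((Fin.cons x ν : Fin (m + 2) → V) ∘ liftR Fin.succ)) :=
    ((Dfn.edge (Fin.succ 0) 0).and h2).ex.congr fun V E U ν => Iff.rfl
  have h5 : Dfn (n := m + 1) (fun V E U ν => ∀ x, ¬ E (ν 0) x) :=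
    ((Dfn.edge (n := m + 2) (Fin.succ 0) 0).neg).all.congr fun V E U ν => Iff.rfl
  have h6 : Dfn (n := m + 1) (fun V E U ν => R V E U ν →
      ((¬ U (ν 0) → ∀ x, E (ν 0) x →
        R V E U ((Fin.cons x ν : Fin (m + 2) → V) ∘ liftR Fin.succ)) ∧
      (U (ν 0) → (∃ x, E (ν 0) x ∧
        R V E U ((Fin.cons x ν : Fin (m + 2) → V) ∘ liftR Fin.succ)) ∨ ∀ x, ¬ E (ν 0) x))) :=
    hR.imp (((Dfn.uni 0).neg.imp h3).and ((Dfn.uni 0).imp (h4.or h5)))
  refine (h1.and h6.all).congr fun V E U ν => ?_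
  simp only [Trap, comp_lift_succ]
  rfl

/-- A functional on sets with parameters. -/
abbrev Fnl (n : ℕ) :=
  ∀ (V : Type), (V → V → Prop) → (V → Prop) → (Fin n → V) → (V → Prop) → Prop

/-- The functional maps definable sets to definable properties. -/
def UD {n : ℕ} (Φ : Fnl n) : Prop :=
  ∀ (m : ℕ) (f : Fin n → Fin m) (S : Qry (m + 1)), Dfn S →
    Dfn (n := m) (fun V E U ν => Φ V E U (ν ∘ f) (fun w => S V E U (Fin.cons w ν)))

theorem ud_ExU {n : ℕ} {Bl : Qry (n + 2)} (hBl : Dfn Bl) {Φ : Fnl n} (hΦ : UD Φ) (k : ℕ) :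
    UD (fun V E U ν S => ExU (fun z w => Bl V E U (Fin.cons z (Fin.cons w ν)))
      (Φ V E U ν) k S) := by
  induction k with
  | zero => exact hΦ
  | succ k ih =>
    intro m f S hS
    have h1 := ih m f S hS
    have hS' : Dfn (n := m + 2) (fun V E U ν => S V E U (ν ∘ liftR Fin.succ) ∨
        Bl V E U (ν ∘ (Fin.cons (Fin.succ 0) (Fin.cons 0 (fun i => (f i).succ.succ) :
          Fin (n + 1) → Fin (m + 2)) : Fin (n + 2) → Fin (m + 2)))) :=
      (hS.ren _).or (hBl.ren _)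
    have h2 := ih (m + 1) (fun i => (f i).succ) _ hS'
    refine (h1.or h2.ex).congr fun V E U ν => ?_
    simp only [comp_lift_succ, comp_swap]
    rfl

theorem dfn_ball {m : ℕ} {W : Qry (m + 1)} (hW : Dfn W) :
    Dfn (n := m + 2) (fun V E U ν => Ball E (fun x => W V E U (Fin.cons x fun i => ν i.succ.succ))
      (ν 0) (ν (Fin.succ 0))) := by
  have h0 : Dfn (n := m + 2) (fun V E U ν => W V E U (Fin.cons (ν 0) fun i => ν i.succ.succ)) :=
    (hW.ren (Fin.cons 0 (fun i => i.succ.succ) : Fin (m + 1) → Fin (m + 2))).congr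
      fun V E U ν => by
        rw [show ν ∘ (Fin.cons 0 (fun i => i.succ.succ) : Fin (m + 1) → Fin (m + 2)) =
          Fin.cons (ν 0) (fun i => ν i.succ.succ) from by
            funext i; refine Fin.cases ?_ (fun j => ?_) i <;> rfl]
  have h1 : Dfn (n := m + 2) (fun V E U ν =>
      W V E U (Fin.cons (ν (Fin.succ 0)) fun i => ν i.succ.succ)) :=
    (hW.ren (Fin.cons (Fin.succ 0) (fun i => i.succ.succ) : Fin (m + 1) → Fin (m + 2))).congr
      fun V E U ν => by
        rw [show ν ∘ (Fin.cons (Fin.succ 0) (fun i => i.succ.succ) : Fin (m + 1) → Fin (m + 2)) =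
          Fin.cons (ν (Fin.succ 0)) (fun i => ν i.succ.succ) from by
            funext i; refine Fin.cases ?_ (fun j => ?_) i <;> rfl]
  have h2 : Dfn (n := m + 3) (fun V E U ν =>
      W V E U (Fin.cons (ν 0) fun i => ν i.succ.succ.succ)) :=
    (hW.ren (Fin.cons 0 (fun i => i.succ.succ.succ) : Fin (m + 1) → Fin (m + 3))).congr
      fun V E U ν => by
        rw [show ν ∘ (Fin.cons 0 (fun i => i.succ.succ.succ) : Fin (m + 1) → Fin (m + 3)) =
          Fin.cons (ν 0) (fun i => ν i.succ.succ.succ) from by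
            funext i; refine Fin.cases ?_ (fun j => ?_) i <;> rfl]
  have h3 : Dfn (n := m + 2) (fun V E U ν => ∃ x, W V E U (Fin.cons x fun i => ν i.succ.succ) ∧
      (E (ν 0) x ∧ E x (ν (Fin.succ 0)))) :=
    (h2.and ((Dfn.edge (Fin.succ 0) 0).and (Dfn.edge 0 (Fin.succ (Fin.succ 0))))).ex.congr
      fun V E U ν => Iff.rfl
  exact ((h1.and h0).and ((Dfn.eq (Fin.succ 0) 0).or ((Dfn.edge 0 (Fin.succ 0)).or h3))).congr
    fun V E U ν => Iff.rfl

/-- The losing positions are definable. The variables are `v` and `t`. -/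
theorem dfn_lose (k : ℕ) : Dfn (n := 2) (fun _ E U ν => Lose E U k (ν 1) (ν 0)) := by
  -- the two ball relations, with parameters `v, t`
  have hW1 : Dfn (n := 3) (fun _ _ U ν => ¬ U (ν 0)) := (Dfn.uni 0).neg
  have hW2 : Dfn (n := 3) (fun _ _ U ν => U (ν 0) ∧ ν 0 ≠ ν 2) :=
    (Dfn.uni 0).and (Dfn.eq 0 2).neg
  have hB1 := dfn_ball hW1
  have hB2 := dfn_ball hW2
  -- the inner functional
  have hin : ∀ (m : ℕ) (f : Fin 2 → Fin m) (Y : Qry (m + 1)), Dfn Y →
      UD (n := m) (fun V E U ν X =>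
        Trap E U (Reg U (ν (f 1)) (fun w => Y V E U (Fin.cons w ν)) X) (ν (f 0))) := by
    intro m f Y hY m' f' X hX
    have hR : Dfn (n := m' + 1) (fun V E U ν => Reg U (ν (f' (f 1)).succ)
        (fun _ => Y V E U (ν ∘ liftR f')) (fun _ => X V E U ν) (ν 0)) :=
      ((Dfn.eq 0 (f' (f 1)).succ).neg).and
        (((Dfn.uni 0).neg.and (hY.ren _)).or ((Dfn.uni 0).and hX.neg))
    refine (dfn_trap (f' (f 0)) hR).congr fun V E U ν => ?_
    have : ∀ w, (Fin.cons w ν : Fin (m' + 1) → V) ∘ liftR f' = Fin.cons w (ν ∘ f') :=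
      fun w => cons_comp_liftR f' w ν
    simp only [this]
    rfl
  have hout : UD (n := 2) (fun V E U ν Y =>
      ExU (Ball E fun w => U w ∧ w ≠ ν 1) (fun X => Trap E U (Reg U (ν 1) Y X) (ν 0)) k
        (fun _ => False)) := by
    intro m f Y hY
    have hB2' : Dfn (n := m + 2) (fun V E U ν => Ball E (fun w => U w ∧ w ≠ ν (f 1).succ.succ)
        (ν 0) (ν (Fin.succ 0))) :=
      (hB2.ren (Fin.cons 0 (Fin.cons (Fin.succ 0) (fun i => (f i).succ.succ) :
        Fin 3 → Fin (m + 2)) : Fin 4 → Fin (m + 2))).congr fun V E U ν => Iff.rfl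
    have h := ud_ExU hB2' (hin m f Y hY) k m id (fun _ _ _ _ => False)
      (((Dfn.eq (n := m + 1) 0 0).neg).congr fun V E U ν => by simp)
    exact h.congr fun V E U ν => Iff.rfl
  have h := ud_ExU hB1 hout k 2 id (fun _ _ _ _ => False)
    (((Dfn.eq (n := 3) 0 0).neg).congr fun V E U ν => by simp)
  exact h.congr fun V E U ν => Iff.rfl

theorem main (k : ℕ) : ∃ φ : Fo 2,
    (∀ (V : Type) (E : V → V → Prop) (U : V → Prop) (v t : V), Win E U t v →
      φ.Holds E U ![v, t]) ∧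
    ∀ (V : Type) [Finite V] (E : V → V → Prop) (U : V → Prop) (t : V),
      IndepLe E (fun w => ¬ U w) k → IndepLe E (fun w => U w ∧ w ≠ t) k →
      ∀ v, φ.Holds E U ![v, t] ↔ Win E U t v := by
  obtain ⟨φ, hφ⟩ := (dfn_lose k).neg
  have hφ' : ∀ (V : Type) (E : V → V → Prop) (U : V → Prop) (v t : V),
      φ.Holds E U ![v, t] ↔ ¬ Lose E U k t v := fun V E U v t => hφ V E U ![v, t]
  refine ⟨φ, fun V E U v t hw => ?_, fun V _ E U t h1 h2 v => ?_⟩
  · rw [hφ']
    intro h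
    obtain ⟨Y, h⟩ := ExU_sound k _ h
    obtain ⟨X, h⟩ := ExU_sound k _ h
    exact trap_not_win h (fun h => h.1 rfl) hw
  · rw [hφ', lose_iff h1 h2, not_not]

end Pool.Agent.H255R3.AR
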